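import Mathlib
import Pool.Agent.Y831.RC5.Abund5

/-!
# Large prime gaps at the integer parts of almost all dilates of a sequence

`x n → ∞` arbitrary.  For almost every `α > 0` the distance from `⌊α x n⌋` to the next prime is
not `O(log (x n))`.
-/

set_option autoImplicit false

open MeasureTheory Filter Topology Set

namespace Pool.Agent.Q136.MG

/-- `g(n) = q(n) - n`, where `q(n)` is the least prime `> n`. -/
noncomputable def gap (n : ℕ) : ℕ := sInf {p : ℕ | p.Prime ∧ n < p} - n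

/-- Every prime is at a distance greater than `H` from the real number `y`. -/
def Far (H y : ℝ) : Prop := ∀ q : ℕ, q.Prime → H < |(q : ℝ) - y|

theorem Far.lt_gap {H y : ℝ} (hy : 0 ≤ y) (h : Far H y) : H < gap ⌊y⌋₊ := by
  have hne : {p : ℕ | p.Prime ∧ ⌊y⌋₊ < p}.Nonempty := by
    obtain ⟨p, hp, hpp⟩ := Nat.exists_infinite_primes (⌊y⌋₊ + 1)
    exact ⟨p, hpp, by omega⟩
  obtain ⟨h1, h2⟩ := Nat.sInf_mem hne
  have h3 := h _ h1
  have h4 : (⌊y⌋₊ : ℝ) ≤ y := Nat.floor_le hy
  have h5 : y < ⌊y⌋₊ + 1 := Nat.lt_floor_add_one y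
  have h6 : ((sInf {p : ℕ | p.Prime ∧ ⌊y⌋₊ < p} : ℕ) : ℝ) = ⌊y⌋₊ + gap ⌊y⌋₊ := by
    have : sInf {p : ℕ | p.Prime ∧ ⌊y⌋₊ < p} = ⌊y⌋₊ + gap ⌊y⌋₊ := by unfold gap; omega
    exact_mod_cast this
  have h7 : ((⌊y⌋₊ : ℕ) : ℝ) + 1 ≤ (sInf {p : ℕ | p.Prime ∧ ⌊y⌋₊ < p} : ℕ) := by
    exact_mod_cast h2
  rw [abs_of_pos (by linarith)] at h3
  linarith

theorem lt_gap {n : ℕ} {F : ℝ} (h : ∀ k : ℕ, 1 ≤ k → (k : ℝ) ≤ F → ¬ (n + k).Prime) :
    F < gap n := by
  have hne : {p : ℕ | p.Prime ∧ n < p}.Nonempty := by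
    obtain ⟨p, hp, hpp⟩ := Nat.exists_infinite_primes (n + 1)
    exact ⟨p, hpp, by omega⟩
  obtain ⟨h1, h2⟩ := Nat.sInf_mem hne
  by_contra hcon
  push Not at hcon
  refine h (gap n) ?_ hcon ?_
  · unfold gap; omega
  · have : n + gap n = sInf {p : ℕ | p.Prime ∧ n < p} := by unfold gap; omega
    rw [this]
    exact h1

/-- Many integers followed by long prime-free intervals, in every window. -/
theorem window (K : ℝ) (hK : 0 < K) : ∃ p : ℝ, 0 < p ∧ ∀ u v : ℝ, 0 < u → u < v →
    ∃ x₀ : ℝ, 1 ≤ x₀ ∧ ∀ x : ℝ, x₀ ≤ x → ∃ N : Finset ℕ, p * (v - u) * x ≤ N.card ∧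
      ∀ n ∈ N, u * x ≤ n ∧ (n : ℝ) + 1 ≤ v * x ∧
        ∀ y : ℝ, (n : ℝ) ≤ y → y < n + 1 → Far (K * Real.log x) y := by
  obtain ⟨T₀, X₀, h⟩ := Pool.Agent.Y831.RC.abund5 (1 / 4) (1 / 2) (by norm_num) (by norm_num)
    (by norm_num)
  set T : ℝ := max T₀ (Real.exp (32 * K)) with hT
  have hT0 : T₀ ≤ T := le_max_left _ _
  have hT1 : Real.exp (32 * K) ≤ T := le_max_right _ _
  have hTpos : 0 < T := lt_of_lt_of_le (Real.exp_pos _) hT1
  have hlogT : 32 * K ≤ Real.log T := by
    rw [Real.le_log_iff_exp_le hTpos]; exact hT1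
  refine ⟨Real.exp (-T), Real.exp_pos _, fun u v hu huv => ?_⟩
  have hd : 0 < v - u := by linarith
  refine ⟨max 1 (max (X₀ / (v - u)) (max (Real.exp T / (v - u)) (max ((v - u) / u ^ 2)
    (max (1 / (v - u) ^ 2) (Real.exp (2 / K)))))), le_max_left _ _, fun x hx => ?_⟩
  have hx1 : 1 ≤ x := le_trans (le_max_left _ _) hx
  have hx' := le_trans (le_max_right _ _) hx
  have hx2 : X₀ / (v - u) ≤ x := le_trans (le_max_left _ _) hx'
  have hx'' := le_trans (le_max_right _ _) hx'
  have hx3 : Real.exp T / (v - u) ≤ x := le_trans (le_max_left _ _) hx''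
  have hx''' := le_trans (le_max_right _ _) hx''
  have hx4 : (v - u) / u ^ 2 ≤ x := le_trans (le_max_left _ _) hx'''
  have hx'''' := le_trans (le_max_right _ _) hx'''
  have hx5 : 1 / (v - u) ^ 2 ≤ x := le_trans (le_max_left _ _) hx''''
  have hx6 : Real.exp (2 / K) ≤ x := le_trans (le_max_right _ _) hx''''
  have hx0 : 0 < x := by linarith
  set X : ℝ := (v - u) * x with hX
  have hXpos : 0 < X := mul_pos hd hx0
  have hXX₀ : X₀ ≤ X := by
    rw [div_le_iff₀ hd] at hx2; rw [hX]; linarith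
  have hXT : Real.exp T ≤ X := by
    rw [div_le_iff₀ hd] at hx3; rw [hX]; linarith
  have hTX : T ≤ Real.log X := by
    rw [Real.le_log_iff_exp_le hXpos]; exact hXT
  have hux : X ^ (1 / 2 : ℝ) ≤ u * x := by
    have h1 : X ≤ (u * x) ^ 2 := by
      rw [div_le_iff₀ (by positivity)] at hx4
      calc X = (v - u) * x := rfl
        _ ≤ (x * u ^ 2) * x := by nlinarith
        _ = (u * x) ^ 2 := by ring
    calc X ^ (1 / 2 : ℝ) ≤ ((u * x) ^ 2) ^ (1 / 2 : ℝ) :=
          Real.rpow_le_rpow hXpos.le h1 (by norm_num)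
      _ = u * x := by
          rw [← Real.sqrt_eq_rpow, Real.sqrt_sq (by positivity)]
  have hlog2 : Real.log x ≤ 2 * Real.log X := by
    have h1 : x ≤ X ^ 2 := by
      rw [div_le_iff₀ (by positivity)] at hx5
      calc x = 1 * x := (one_mul x).symm
        _ ≤ (x * (v - u) ^ 2) * x := by nlinarith
        _ = X ^ 2 := by rw [hX]; ring
    calc Real.log x ≤ Real.log (X ^ 2) := Real.log_le_log hx0 h1
      _ = 2 * Real.log X := by rw [Real.log_pow]; norm_num
  have hlogx : 2 / K ≤ Real.log x := by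
    rw [Real.le_log_iff_exp_le hx0]; exact hx6
  have hKlog : 2 ≤ K * Real.log x := by
    rw [div_le_iff₀ hK] at hlogx; linarith
  set Fl : ℝ := 1 / 4 * (Real.log X * Real.log T) with hFl
  have hF : 4 * (K * Real.log x) ≤ Fl := by
    have h1 : 0 ≤ Real.log X := by linarith
    have h2 : Real.log X * (32 * K) ≤ Real.log X * Real.log T :=
      mul_le_mul_of_nonneg_left hlogT h1
    have h3 : K * Real.log x ≤ K * (2 * Real.log X) := mul_le_mul_of_nonneg_left hlog2 hK.le
    rw [hFl]; linarith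
  have hmain := h X hXX₀ T hT0 hTX (u * x)
  set St := Pool.Agent.Y831.RC.RunSet (u * x) X Fl (X ^ (1 / 2 : ℝ)) with hSt
  have hcardpos : (0 : ℝ) < (St.ncard : ℝ) := lt_of_lt_of_le (by positivity) hmain
  have hfin : St.Finite := Set.finite_of_ncard_pos (by exact_mod_cast hcardpos)
  set hh : ℕ := ⌊Fl / 2⌋₊ with hhh
  have hFlpos : 0 ≤ Fl / 2 := by linarith
  have hh1 : (hh : ℝ) ≤ Fl / 2 := Nat.floor_le hFlpos
  have hh2 : Fl / 2 < hh + 1 := Nat.lt_floor_add_one _
  refine ⟨hfin.toFinset.image (fun a => a.toNat + hh), ?_, ?_⟩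
  · rw [Finset.card_image_of_injOn, ← Set.ncard_eq_toFinset_card St hfin]
    · calc Real.exp (-T) * (v - u) * x = X * Real.exp (-T) := by rw [hX]; ring
        _ ≤ _ := hmain
    · intro a ha b hb hab
      have ha' : a ∈ St := by simpa using ha
      have hb' : b ∈ St := by simpa using hb
      have h1 : (0 : ℝ) ≤ a := le_trans (by positivity) ha'.1
      have h2 : (0 : ℝ) ≤ b := le_trans (by positivity) hb'.1
      have h3 : 0 ≤ a := by exact_mod_cast h1
      have h4 : 0 ≤ b := by exact_mod_cast h2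
      have hab' : a.toNat + hh = b.toNat + hh := hab
      omega
  · intro n hn
    rw [Finset.mem_image] at hn
    obtain ⟨a, ha, rfl⟩ := hn
    have ha' : a ∈ St := by simpa using ha
    obtain ⟨h1, h2, h3⟩ := ha'
    have ha0 : 0 ≤ a := by
      have : (0 : ℝ) ≤ a := le_trans (by positivity) h1
      exact_mod_cast this
    have hcast : ((a.toNat : ℕ) : ℝ) = (a : ℝ) := by
      have : ((a.toNat : ℕ) : ℤ) = a := Int.toNat_of_nonneg ha0
      exact_mod_cast this
    have hvx : u * x + X = v * x := by rw [hX]; ring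
    refine ⟨?_, ?_, fun y hy1 hy2 q hq => ?_⟩
    · push_cast
      rw [hcast]
      have : (0 : ℝ) ≤ hh := Nat.cast_nonneg _
      linarith
    · push_cast
      rw [hcast]
      linarith
    · push_cast at hy1 hy2
      rw [hcast] at hy1 hy2
      -- `q` is not one of `a + 1, …, a + Fl`
      have hqn : (q : ℝ) ≤ a ∨ (a : ℝ) + Fl < q := by
        by_contra hcon
        push Not at hcon
        obtain ⟨c1, c2⟩ := hcon
        have c3 : a.toNat < q := by
          have : ((a.toNat : ℕ) : ℝ) < q := by rw [hcast]; exact c1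
          exact_mod_cast this
        obtain ⟨k, rfl⟩ := Nat.exists_eq_add_of_lt c3
        have c4 : (((k + 1 : ℕ)) : ℝ) ≤ Fl := by
          push_cast at c2 ⊢
          rw [hcast] at c2
          linarith
        obtain ⟨p, hp, hpy, hdvd⟩ := h3 (k + 1) (by omega) c4
        have hdvd' : p ∣ a.toNat + k + 1 := by
          have : ((a.toNat + k + 1 : ℕ) : ℤ) = a + ((k + 1 : ℕ) : ℤ) := by
            push_cast
            rw [Int.toNat_of_nonneg ha0]
            ring
          rw [← this] at hdvd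
          exact_mod_cast hdvd
        have heq : p = a.toNat + k + 1 := (Nat.prime_dvd_prime_iff_eq hp hq).1 hdvd'
        have h4 : (p : ℝ) = (a : ℝ) + k + 1 := by
          rw [heq]; push_cast; rw [hcast]
        have h5 : (0 : ℝ) ≤ k := Nat.cast_nonneg _
        have h6 : (p : ℝ) ≤ u * x := le_trans hpy hux
        linarith
      rcases hqn with hq1 | hq1
      · rw [abs_sub_comm]
        refine lt_of_lt_of_le ?_ (le_abs_self _)
        linarith
      · refine lt_of_lt_of_le ?_ (le_abs_self _)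
        linarith

/-- The set of the dilation factors `α` such that all primes are far from `α x`. -/
def Good (H x : ℝ) : Set ℝ := {α | Far H (α * x)}

theorem measurable_Good (H x : ℝ) : MeasurableSet (Good H x) := by
  have : Good H x = ⋂ q : ℕ, {α | q.Prime → H < |(q : ℝ) - α * x|} := by
    ext α
    simp only [Good, Far, Set.mem_iInter, Set.mem_ofPred_eq]
  rw [this]
  refine MeasurableSet.iInter (fun q => ?_)
  by_cases hq : q.Prime
  · have h1 : {α : ℝ | q.Prime → H < |(q : ℝ) - α * x|} = {α : ℝ | H < |(q : ℝ) - α * x|} := by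
      ext α
      simp [hq]
    rw [h1]
    apply IsOpen.measurableSet
    apply isOpen_lt continuous_const
    fun_prop
  · have h1 : {α : ℝ | q.Prime → H < |(q : ℝ) - α * x|} = Set.univ := by
      ext α
      simp [hq]
    rw [h1]
    exact MeasurableSet.univ

theorem Good_of_mem {H x : ℝ} (hx : 0 < x) {n : ℕ}
    (hn : ∀ y : ℝ, (n : ℝ) ≤ y → y < n + 1 → Far H y) :
    Set.Ico ((n : ℝ) / x) (((n : ℝ) + 1) / x) ⊆ Good H x := by
  intro α hα
  obtain ⟨h1, h2⟩ := hα
  rw [div_le_iff₀ hx] at h1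
  rw [lt_div_iff₀ hx] at h2
  exact hn _ h1 h2

theorem measure_Good (K : ℝ) (hK : 0 < K) : ∃ p : ℝ, 0 < p ∧ ∀ u v : ℝ, 0 < u → u < v →
    ∃ x₀ : ℝ, ∀ x : ℝ, x₀ ≤ x →
      ENNReal.ofReal (p * (v - u)) ≤ volume (Good (K * Real.log x) x ∩ Set.Icc u v) := by
  obtain ⟨p, hp, h⟩ := window K hK
  refine ⟨p, hp, fun u v hu huv => ?_⟩
  obtain ⟨x₀, hx₀, h1⟩ := h u v hu huv
  refine ⟨x₀, fun x hx => ?_⟩
  have hx0 : 0 < x := by linarith
  obtain ⟨N, hN, hN2⟩ := h1 x hx
  have hsub : (⋃ n ∈ N, Set.Ico ((n : ℝ) / x) (((n : ℝ) + 1) / x)) ⊆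
      Good (K * Real.log x) x ∩ Set.Icc u v := by
    intro α hα
    rw [Set.mem_iUnion₂] at hα
    obtain ⟨n, hn, hα⟩ := hα
    obtain ⟨h2, h3, h4⟩ := hN2 n hn
    refine ⟨Good_of_mem hx0 h4 hα, ?_, ?_⟩
    · calc u = u * x / x := by field_simp
        _ ≤ (n : ℝ) / x := by gcongr
        _ ≤ α := hα.1
    · calc α ≤ ((n : ℝ) + 1) / x := hα.2.le
        _ ≤ v * x / x := by gcongr
        _ = v := by field_simp
  refine le_trans ?_ (measure_mono hsub)
  rw [measure_biUnion_finset]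
  · have h5 : ∀ n ∈ N, volume (Set.Ico ((n : ℝ) / x) (((n : ℝ) + 1) / x)) =
        ENNReal.ofReal (1 / x) := by
      intro n _
      rw [Real.volume_Ico]
      congr 1
      field_simp
      ring
    rw [Finset.sum_congr rfl h5, Finset.sum_const, nsmul_eq_mul, ← ENNReal.ofReal_natCast,
      ← ENNReal.ofReal_mul (Nat.cast_nonneg _)]
    apply ENNReal.ofReal_le_ofReal
    rw [mul_one_div, le_div_iff₀ hx0]
    exact hN
  · intro a _ b _ hab
    simp only [Function.onFun]
    rw [Set.disjoint_left]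
    intro α h2 h3
    rw [Set.mem_Ico, div_le_iff₀ hx0, lt_div_iff₀ hx0] at h2 h3
    rcases lt_or_gt_of_ne hab with h4 | h4
    · have : (a : ℝ) + 1 ≤ b := by exact_mod_cast h4
      linarith [h2.2, h3.1]
    · have : (b : ℝ) + 1 ≤ a := by exact_mod_cast h4
      linarith [h3.2, h2.1]
  · intro n _
    exact measurableSet_Ico

/-- A set which occupies at least the proportion `p` of every interval of positive numbers
contains almost all positive numbers. -/
theorem ae_of_density {E : Set ℝ} (hE : MeasurableSet E) {p : ℝ} (hp : 0 < p)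
    (h : ∀ u v : ℝ, 0 < u → u < v → ENNReal.ofReal (p * (v - u)) ≤ volume (E ∩ Set.Icc u v)) :
    ∀ᵐ α : ℝ, 0 < α → α ∈ E := by
  set S : Set ℝ := Set.Ioi 0 \ E with hS
  have hSm : MeasurableSet S := measurableSet_Ioi.diff hE
  have hd := IsUnifLocDoublingMeasure.ae_tendsto_measure_inter_div (volume : Measure ℝ) S 1
  rw [ae_restrict_iff' hSm] at hd
  filter_upwards [hd] with x hx hx0
  by_contra hcon
  have hxS : x ∈ S := ⟨hx0, hcon⟩
  have hδ : Tendsto (fun j : ℕ => x / ((j : ℝ) + 2)) atTop (𝓝[>] 0) := by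
    rw [tendsto_nhdsWithin_iff]
    constructor
    · have h1 : Tendsto (fun j : ℕ => ((j : ℝ) + 2)) atTop atTop :=
        tendsto_atTop_add_const_right _ _ tendsto_natCast_atTop_atTop
      exact h1.const_div_atTop x
    · refine Eventually.of_forall (fun j => ?_)
      have : (0 : ℝ) < (j : ℝ) + 2 := by positivity
      exact div_pos hx0 this
  have hlim := hx hxS (fun _ : ℕ => x) (fun j : ℕ => x / ((j : ℝ) + 2)) hδ
    (Eventually.of_forall (fun j => by
      rw [one_mul]
      exact Metric.mem_closedBall_self (by positivity)))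
  have hbound : ∀ j : ℕ, volume (S ∩ Metric.closedBall x (x / ((j : ℝ) + 2))) /
      volume (Metric.closedBall x (x / ((j : ℝ) + 2))) ≤ ENNReal.ofReal (1 - p) := by
    intro j
    set δ : ℝ := x / ((j : ℝ) + 2) with hδdef
    have hδpos : 0 < δ := by
      have : (0 : ℝ) < (j : ℝ) + 2 := by positivity
      exact div_pos hx0 this
    have hδx : δ < x := by
      rw [hδdef, div_lt_iff₀ (by positivity)]
      have : (0 : ℝ) ≤ j := Nat.cast_nonneg j
      nlinarith
    rw [Real.closedBall_eq_Icc, Real.volume_Icc]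
    have h1 := h (x - δ) (x + δ) (by linarith) (by linarith)
    have h2 : x + δ - (x - δ) = 2 * δ := by ring
    rw [h2] at h1 ⊢
    have h3 : volume (E ∩ Set.Icc (x - δ) (x + δ)) + volume (S ∩ Set.Icc (x - δ) (x + δ)) ≤
        ENNReal.ofReal (2 * δ) := by
      have hvol : volume (Set.Icc (x - δ) (x + δ)) = ENNReal.ofReal (2 * δ) := by
        rw [Real.volume_Icc, h2]
      rw [← hvol, ← measure_union]
      · apply measure_mono
        intro y hy
        rcases hy with hy | hy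
        · exact hy.2
        · exact hy.2
      · rw [Set.disjoint_left]
        rintro y ⟨hy1, -⟩ ⟨hy2, -⟩
        exact hy2.2 hy1
      · exact hSm.inter measurableSet_Icc
    have hp1 : p ≤ 1 := by
      have h4 : ENNReal.ofReal (p * (2 * δ)) ≤ ENNReal.ofReal (2 * δ) :=
        le_trans h1 (le_trans (le_add_right le_rfl) h3)
      rw [ENNReal.ofReal_le_ofReal_iff (by positivity)] at h4
      by_contra hc
      push Not at hc
      nlinarith
    have h5 : volume (S ∩ Set.Icc (x - δ) (x + δ)) ≤ ENNReal.ofReal ((1 - p) * (2 * δ)) := by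
      have h6 : ENNReal.ofReal (p * (2 * δ)) + volume (S ∩ Set.Icc (x - δ) (x + δ)) ≤
          ENNReal.ofReal (p * (2 * δ)) + ENNReal.ofReal ((1 - p) * (2 * δ)) := by
        rw [← ENNReal.ofReal_add (by positivity) (by nlinarith)]
        calc _ ≤ _ := add_le_add_left h1 _
          _ ≤ ENNReal.ofReal (2 * δ) := h3
          _ = _ := by congr 1; ring
      exact (ENNReal.add_le_add_iff_left ENNReal.ofReal_ne_top).1 h6
    rw [ENNReal.div_le_iff (by simpa using hδpos) ENNReal.ofReal_ne_top,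
      ← ENNReal.ofReal_mul (by linarith)]
    exact h5
  have h1le := le_of_tendsto hlim (Eventually.of_forall hbound)
  have : ENNReal.ofReal (1 - p) < 1 := by
    rw [← ENNReal.ofReal_one, ENNReal.ofReal_lt_ofReal_iff one_pos]
    linarith
  exact absurd h1le (not_le.2 this)

/-- For almost every `α > 0` the distances of the `α x n` to the primes are not
`O(log (x n))`. -/
theorem ae_main (x : ℕ → ℝ) (hx : Tendsto x atTop atTop) :
    ∀ᵐ α : ℝ, 0 < α → ∀ K : ℝ, ∃ᶠ n in atTop, Far (K * Real.log (x n)) (α * x n) := by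
  have key : ∀ K : ℕ, ∀ᵐ α : ℝ, 0 < α →
      ∀ m : ℕ, ∃ n, m ≤ n ∧ Far (((K : ℝ) + 1) * Real.log (x n)) (α * x n) := by
    intro K
    have h1 : ∀ m : ℕ, ∀ᵐ α : ℝ, 0 < α →
        α ∈ ⋃ n ∈ Set.Ici m, Good (((K : ℝ) + 1) * Real.log (x n)) (x n) := by
      intro m
      obtain ⟨p, hp, h⟩ := measure_Good ((K : ℝ) + 1) (by positivity)
      refine ae_of_density (E := ⋃ n ∈ Set.Ici m, Good (((K : ℝ) + 1) * Real.log (x n)) (x n))
        (MeasurableSet.biUnion (Set.to_countable _) (fun n _ => measurable_Good _ _)) hp ?_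
      intro u v hu huv
      obtain ⟨x₀, hx₀⟩ := h u v hu huv
      obtain ⟨n, hn, hxn⟩ := ((eventually_ge_atTop m).and (hx.eventually_ge_atTop x₀)).exists
      refine le_trans (hx₀ (x n) hxn) (measure_mono ?_)
      intro α hα
      exact ⟨Set.mem_iUnion₂.2 ⟨n, hn, hα.1⟩, hα.2⟩
    filter_upwards [ae_all_iff.2 h1] with α hα hα0 m
    have := hα m hα0
    rw [Set.mem_iUnion₂] at this
    obtain ⟨n, hn, h2⟩ := this
    exact ⟨n, hn, h2⟩
  filter_upwards [ae_all_iff.2 key] with α hα hα0 K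
  obtain ⟨K', hK'⟩ := exists_nat_ge K
  rw [frequently_atTop]
  intro m
  obtain ⟨m', hm'⟩ := eventually_atTop.1 (hx.eventually_ge_atTop 1)
  obtain ⟨n, hn, h⟩ := hα K' hα0 (max m m')
  refine ⟨n, le_trans (le_max_left _ _) hn, fun q hq => lt_of_le_of_lt ?_ (h q hq)⟩
  have hlog : 0 ≤ Real.log (x n) := Real.log_nonneg (hm' n (le_trans (le_max_right _ _) hn))
  exact mul_le_mul_of_nonneg_right (by linarith) hlog

end Pool.Agent.Q136.MG
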