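import Mathlib
import Pool.Agent.Q136.MG.AE
import Pool.Agent.Results.MP_c853c5_nt.NoAlmostPrimes

/-!
# Record prime gaps at the integer parts of the dilates of a sequence: a comeager set of dilates
-/

set_option autoImplicit false

open MeasureTheory Filter Topology Set

namespace Pool.Agent.Q136.MG

/-- The record scale `f(x) = log x (log₂ x)² log₄ x / (log₃ x)²` (iterated natural logarithms). -/
noncomputable def f (x : ℝ) : ℝ :=
  Real.log x * (Real.log (Real.log x)) ^ 2 * Real.log (Real.log (Real.log (Real.log x))) /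
    (Real.log (Real.log (Real.log x))) ^ 2

/-- For large `y`, `w` with `y ≤ w²` and `w ≤ y²`: `f(y) ≤ 64 f(w)`. -/
theorem f_compare : ∃ y₀ : ℝ, 1 ≤ y₀ ∧ ∀ y w : ℝ, y₀ ≤ y → y₀ ≤ w → y ≤ w ^ 2 → w ≤ y ^ 2 →
    f y ≤ 64 * f w ∧ 0 < f w ∧ Real.log w ≤ f w := by
  -- thresholds: log, log log, log log log, log log log log are at least `log 2` at `y₀`
  have hl : Tendsto Real.log atTop atTop := Real.tendsto_log_atTop
  have h4 : Tendsto (fun x => Real.log (Real.log (Real.log (Real.log x)))) atTop atTop :=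
    hl.comp (hl.comp (hl.comp hl))
  have h3 : Tendsto (fun x => Real.log (Real.log (Real.log x))) atTop atTop :=
    hl.comp (hl.comp hl)
  have h2 : Tendsto (fun x => Real.log (Real.log x)) atTop atTop := hl.comp hl
  obtain ⟨a, ha⟩ := eventually_atTop.1 ((eventually_ge_atTop (1 : ℝ)).and
    ((hl.eventually_ge_atTop 1).and
    ((h2.eventually_ge_atTop 1).and ((h3.eventually_ge_atTop 1).and (h4.eventually_ge_atTop 1)))))
  refine ⟨max 1 a, le_max_left _ _, fun y w hy hw hyw hwy => ?_⟩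
  obtain ⟨hy0, hy1, hy2, hy3, hy4⟩ := ha y (le_trans (le_max_right _ _) hy)
  obtain ⟨hw0, hw1, hw2, hw3, hw4⟩ := ha w (le_trans (le_max_right _ _) hw)
  -- one step: `A ≤ 2 B`, `B ≥ 1`, `A ≥ 1`, `log B ≥ 1` imply `log A ≤ 2 log B`
  have step : ∀ A B : ℝ, 1 ≤ A → 1 ≤ B → A ≤ 2 * B → 1 ≤ Real.log B →
      Real.log A ≤ 2 * Real.log B := by
    intro A B hA hB hAB hlB
    have h5 : Real.log A ≤ Real.log (2 * B) := Real.log_le_log (by linarith) hAB
    rw [Real.log_mul (by norm_num) (by linarith)] at h5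
    have h6 : Real.log 2 ≤ 1 := by
      have := Real.log_two_lt_d9; linarith
    linarith
  have c1 : Real.log y ≤ 2 * Real.log w := by
    have h5 : Real.log y ≤ Real.log (w ^ 2) := Real.log_le_log (by linarith) hyw
    rw [Real.log_pow] at h5
    simpa using h5
  have c1' : Real.log w ≤ 2 * Real.log y := by
    have h5 : Real.log w ≤ Real.log (y ^ 2) := Real.log_le_log (by linarith) hwy
    rw [Real.log_pow] at h5
    simpa using h5
  have c2 := step _ _ hy1 hw1 c1 hw2
  have c2' := step _ _ hw1 hy1 c1' hy2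
  have c3 := step _ _ hy2 hw2 c2 hw3
  have c3' := step _ _ hw2 hy2 c2' hy3
  have c4 := step _ _ hy3 hw3 c3 hw4
  set A1 := Real.log y
  set B1 := Real.log w
  set A2 := Real.log A1
  set B2 := Real.log B1
  set A3 := Real.log A2
  set B3 := Real.log B2
  set A4 := Real.log A3
  set B4 := Real.log B3
  have hfw : f w = B1 * B2 ^ 2 * B4 / B3 ^ 2 := rfl
  have hfy : f y = A1 * A2 ^ 2 * A4 / A3 ^ 2 := rfl
  have hB3 : 0 < B3 := by linarith
  have hA3 : 0 < A3 := by linarith
  refine ⟨?_, ?_, ?_⟩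
  · rw [hfw, hfy, div_le_iff₀ (by positivity)]
    have e1 : A1 * A2 ^ 2 * A4 ≤ (2 * B1) * (2 * B2) ^ 2 * (2 * B4) := by
      have : 0 ≤ A1 := by linarith
      have : 0 ≤ A2 := by linarith
      have : 0 ≤ A4 := by linarith
      have : 0 ≤ B1 := by linarith
      have : 0 ≤ B2 := by linarith
      gcongr
    have e2 : B3 ^ 2 ≤ (2 * A3) ^ 2 := by gcongr
    have e3 : 1 ≤ 4 * A3 ^ 2 / B3 ^ 2 := by
      rw [le_div_iff₀ (by positivity)]
      nlinarith
    have e4 : 0 ≤ (2 * B1) * (2 * B2) ^ 2 * (2 * B4) := by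
      have : 0 ≤ B1 := by linarith
      have : 0 ≤ B2 := by linarith
      have : 0 ≤ B4 := by linarith
      positivity
    calc A1 * A2 ^ 2 * A4 ≤ (2 * B1) * (2 * B2) ^ 2 * (2 * B4) := e1
      _ = (2 * B1) * (2 * B2) ^ 2 * (2 * B4) * 1 := (mul_one _).symm
      _ ≤ (2 * B1) * (2 * B2) ^ 2 * (2 * B4) * (4 * A3 ^ 2 / B3 ^ 2) :=
          mul_le_mul_of_nonneg_left e3 e4
      _ = 64 * (B1 * B2 ^ 2 * B4 / B3 ^ 2) * A3 ^ 2 := by ring
  · rw [hfw]
    have : 0 < B1 := by linarith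
    have : 0 < B2 := by linarith
    have : 0 < B4 := by linarith
    positivity
  · rw [hfw, le_div_iff₀ (by positivity)]
    have h5 : B3 ≤ B2 := by
      have := Real.log_le_sub_one_of_pos (show 0 < B2 by linarith)
      linarith
    have h6 : B3 ^ 2 ≤ B2 ^ 2 := by gcongr
    have h7 : 0 ≤ B1 := by linarith
    calc B1 * B3 ^ 2 ≤ B1 * B2 ^ 2 := by gcongr
      _ = B1 * B2 ^ 2 * 1 := (mul_one _).symm
      _ ≤ B1 * B2 ^ 2 * B4 := by gcongr

/-- Record gaps in every window of length `x^θ`. -/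
theorem short_windows (θ : ℝ) (h0 : 0 < θ) (h1 : θ ≤ 1) : ∃ c : ℝ, 0 < c ∧
    ∀ u v : ℝ, 0 < u → u < v → ∃ x₀ : ℝ, 1 ≤ x₀ ∧ ∀ x : ℝ, x₀ ≤ x → ∀ w : ℝ, u * x ≤ w → w ≤ v * x →
      ∃ n : ℕ, w < n ∧ (n : ℝ) ≤ w + w ^ θ ∧ ∀ y : ℝ, (n : ℝ) ≤ y → y < n + 1 → Far (c * f x) y := by
  obtain ⟨c, hc, x₁, h⟩ := Pool.Agent.Results.MP_c853c5_nt.NoAlmostPrimes.result θ h0 h1
  obtain ⟨y₀, hy₀, hf⟩ := f_compare
  refine ⟨c / 128, by positivity, fun u v hu huv => ?_⟩
  have hv : 0 < v := by linarith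
  refine ⟨max 1 (max (x₁ / u) (max y₀ (max (y₀ / u) (max (1 / u ^ 2) (max v
    (Real.exp (2 / c) / u)))))), le_max_left _ _, fun x hx w hw1 hw2 => ?_⟩
  simp only [max_le_iff] at hx
  obtain ⟨hx1, hx2, hx3, hx4, hx5, hx6, hx7⟩ := hx
  have hx0 : 0 < x := by linarith
  have hwx₁ : x₁ ≤ w := by
    rw [div_le_iff₀ hu] at hx2; linarith
  have hwy₀ : y₀ ≤ w := by
    rw [div_le_iff₀ hu] at hx4; linarith
  have hw0 : 0 < w := by linarith
  have hwlog : 2 / c ≤ Real.log w := by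
    rw [Real.le_log_iff_exp_le hw0]
    rw [div_le_iff₀ hu] at hx7; linarith
  obtain ⟨n, hn1, hn2, hn3, -⟩ := h w hwx₁
  refine ⟨n, hn1, hn2, fun y hy1 hy2 q hq => ?_⟩
  have hxw : x ≤ w ^ 2 := by
    rw [div_le_iff₀ (by positivity)] at hx5
    calc x = 1 * x := (one_mul x).symm
      _ ≤ (x * u ^ 2) * x := by nlinarith
      _ = (u * x) ^ 2 := by ring
      _ ≤ w ^ 2 := by gcongr
  have hwx : w ≤ x ^ 2 := by
    calc w ≤ v * x := hw2
      _ ≤ x * x := by gcongr
      _ = x ^ 2 := by ring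
  obtain ⟨h2, -, -⟩ := hf x w hx3 hwy₀ hxw hwx
  obtain ⟨-, h4, h5⟩ := hf w w hwy₀ hwy₀ (by nlinarith) (by nlinarith)
  have h3 : c * f w < |(q : ℝ) - n| := by
    by_contra hcon
    push Not at hcon
    exact hn3 q hcon hq
  have h6 : 2 ≤ c * f w := by
    have h7 : 2 / c ≤ f w := le_trans hwlog h5
    rw [div_le_iff₀ hc] at h7
    linarith
  have h8 : |(q : ℝ) - n| ≤ |(q : ℝ) - y| + 1 := by
    have e : (q : ℝ) - n = ((q : ℝ) - y) + (y - n) := by ring
    rw [e]
    refine le_trans (abs_add_le _ _) ?_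
    have : |y - (n : ℝ)| ≤ 1 := by
      rw [abs_le]; constructor <;> linarith
    linarith
  have h9 : c / 128 * f x ≤ c / 2 * f w := by
    calc c / 128 * f x ≤ c / 128 * (64 * f w) := by gcongr
      _ = c / 2 * f w := by ring
  linarith

theorem baire_main : ∃ c : ℝ, 0 < c ∧ ∀ x : ℕ → ℝ, Tendsto x atTop atTop →
    ∀ᶠ α in residual ℝ, 0 < α → ∃ᶠ n in atTop, Far (c * f (x n)) (α * x n) := by
  obtain ⟨c, hc, h⟩ := short_windows (1 / 2) (by norm_num) (by norm_num)
  refine ⟨c, hc, fun x hx => ?_⟩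
  have key : ∀ m : ℕ, ∀ᶠ α in residual ℝ, 0 < α → ∃ n, m ≤ n ∧ Far (c * f (x n)) (α * x n) := by
    intro m
    set U : Set ℝ := Set.Iio 0 ∪ ⋃ n ∈ {n : ℕ | m ≤ n ∧ 0 < x n},
      ⋃ N ∈ {N : ℕ | ∀ y : ℝ, (N : ℝ) ≤ y → y < N + 1 → Far (c * f (x n)) y}, Set.Ioo ((N : ℝ) / x n) (((N : ℝ) + 1) / x n) with hU
    have hopen : IsOpen U := by
      refine isOpen_Iio.union (isOpen_biUnion (fun n _ => isOpen_biUnion (fun N _ => isOpen_Ioo)))
    have hdense : Dense U := by
      rw [dense_iff_inter_open]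
      intro V hV hVne
      obtain ⟨y, hy⟩ := hVne
      rcases lt_or_ge y 0 with hy0 | hy0
      · exact ⟨y, hy, Or.inl hy0⟩
      · obtain ⟨ε, hε, hball⟩ := Metric.isOpen_iff.1 hV y hy
        -- the window `[y + ε/4, y + ε/2]`
        set u : ℝ := y + ε / 4 with hu
        set v : ℝ := y + ε / 2 with hv
        have hu0 : 0 < u := by linarith
        have huv : u < v := by linarith
        obtain ⟨x₀, hx₀, h1⟩ := h u v hu0 huv
        have hev : ∀ᶠ n in atTop, m ≤ n ∧ x₀ ≤ x n ∧ 16 * (u / (v - u) ^ 2 + 1) ≤ x n ∧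
            4 / (v - u) ≤ x n := by
          filter_upwards [eventually_ge_atTop m, hx.eventually_ge_atTop x₀,
            hx.eventually_ge_atTop (16 * (u / (v - u) ^ 2 + 1)),
            hx.eventually_ge_atTop (4 / (v - u))] with n a1 a2 a3 a4
          exact ⟨a1, a2, a3, a4⟩
        obtain ⟨n, hn, hxn, hxn2, hxn3⟩ := hev.exists
        have hxn0 : 0 < x n := by linarith
        obtain ⟨N, hN1, hN2, hN3⟩ := h1 (x n) hxn (u * x n) le_rfl (by gcongr)
        have hd : 0 < v - u := by linarith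
        -- `(u x)^(1/2) + 1 < (v - u) x`
        have hsq : (u * x n) ^ (1 / 2 : ℝ) + 1 ≤ (v - u) * x n := by
          have e1 : (u * x n) ^ (1 / 2 : ℝ) ≤ (v - u) * x n / 2 := by
            rw [← Real.sqrt_eq_rpow]
            apply Real.sqrt_le_iff.2
            refine ⟨by positivity, ?_⟩
            have e2 : u / (v - u) ^ 2 * 4 ≤ x n := by
              have : 0 ≤ u / (v - u) ^ 2 := by positivity
              linarith
            have e3 : u * 4 ≤ x n * (v - u) ^ 2 := by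
              rw [div_mul_eq_mul_div, div_le_iff₀ (by positivity)] at e2
              exact e2
            nlinarith
          have e4 : 4 ≤ (v - u) * x n := by
            rw [div_le_iff₀ hd] at hxn3; linarith
          linarith
        refine ⟨((N : ℝ) + 1 / 2) / x n, hball ?_, Or.inr ?_⟩
        · rw [Metric.mem_ball, Real.dist_eq, abs_lt]
          have l1 : u < ((N : ℝ) + 1 / 2) / x n := by
            rw [lt_div_iff₀ hxn0]; linarith
          have l2 : ((N : ℝ) + 1 / 2) / x n < v := by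
            rw [div_lt_iff₀ hxn0]
            have : u * x n + (v - u) * x n = v * x n := by ring
            linarith
          constructor <;> linarith
        · rw [Set.mem_iUnion₂]
          refine ⟨n, ⟨hn, hxn0⟩, ?_⟩
          rw [Set.mem_iUnion₂]
          refine ⟨N, hN3, ?_, ?_⟩
          · gcongr; linarith
          · gcongr; linarith
    have hres := residual_of_dense_open hopen hdense
    filter_upwards [hres] with α hα hα0
    rcases hα with hα | hα
    · exact absurd hα0 (not_lt.2 (le_of_lt hα))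
    · rw [Set.mem_iUnion₂] at hα
      obtain ⟨n, ⟨hn, hxn⟩, hα⟩ := hα
      rw [Set.mem_iUnion₂] at hα
      obtain ⟨N, hN, hα⟩ := hα
      exact ⟨n, hn, Good_of_mem hxn hN ⟨hα.1.le, hα.2⟩⟩
  filter_upwards [eventually_countable_forall.2 key] with α hα hα0
  rw [frequently_atTop]
  intro m
  exact hα m hα0

end Pool.Agent.Q136.MG
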