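import Mathlib

/-!
# Limsup sets which meet all short windows have large Hausdorff dimension

Let `x j → ∞` and let `A j` be sets of real numbers such that every window of length `D (x j)^(θ-1)`
of `[a, b]` contains an interval of length `1 / (2 x j)` which is contained in `A j`. Then the set of
the points of `[a, b]` which belong to infinitely many `A j` has dimension at least `1 - θ`.
-/

set_option autoImplicit false

open Filter Topology Set

namespace Pool.Agent.Q136.MG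

theorem tree_points {M : ℕ} (hM : 2 ≤ M) {a b u0 : ℝ} {l : ℕ → ℝ} (hl : ∀ n, 0 < l n)
    {B : ℕ → Set ℝ} (ha : a ≤ u0) (hb : u0 + l 0 ≤ b)
    (hsel : ∀ n w, a ≤ w → w + l n / (2 * M) ≤ b → ∃ w', w ≤ w' ∧
      w' + l (n + 1) ≤ w + l n / (2 * M) ∧ Set.Icc w' (w' + l (n + 1)) ⊆ B n) :
    ∃ p : (ℕ → Fin M) → ℝ, (∀ d, a ≤ p d ∧ p d ≤ b) ∧ (∀ d n, p d ∈ B n) ∧
      ∀ d d' n, (∀ i < n, d i = d' i) → d n ≠ d' n → l n / (2 * M) ≤ |p d - p d'| := by
  have hMr : (2 : ℝ) ≤ M := by exact_mod_cast hM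
  have hM0 : (0 : ℝ) < M := by linarith
  choose! g hg using hsel
  set node : (ℕ → Fin M) → ℕ → ℝ := fun d n =>
    Nat.rec (motive := fun _ => ℝ) u0 (fun n z => g n (z + ((d n : ℕ) : ℝ) * (l n / M))) n with hnode
  have node0 : ∀ d, node d 0 = u0 := fun d => rfl
  have nodeS : ∀ d n, node d (n + 1) = g n (node d n + ((d n : ℕ) : ℝ) * (l n / M)) :=
    fun d n => rfl
  have hdig : ∀ (d : ℕ → Fin M) n, ((d n : ℕ) : ℝ) * (l n / M) + l n / (2 * M) ≤ l n := by
    intro d n
    have h1 : ((d n : ℕ) : ℝ) + 1 ≤ M := by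
      have := (d n).2
      exact_mod_cast this
    have h2 : l n / (2 * M) ≤ l n / M := by
      apply div_le_div_of_nonneg_left (hl n).le hM0
      linarith
    have h3 : 0 < l n / M := div_pos (hl n) hM0
    calc ((d n : ℕ) : ℝ) * (l n / M) + l n / (2 * M)
        ≤ ((d n : ℕ) : ℝ) * (l n / M) + l n / M := by linarith
      _ = (((d n : ℕ) : ℝ) + 1) * (l n / M) := by ring
      _ ≤ M * (l n / M) := mul_le_mul_of_nonneg_right h1 h3.le
      _ = l n := by field_simp
  have inv : ∀ d n, a ≤ node d n ∧ node d n + l n ≤ b := by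
    intro d n
    induction n with
    | zero => exact ⟨ha, hb⟩
    | succ n ih =>
      obtain ⟨i1, i2⟩ := ih
      have h0 : 0 ≤ ((d n : ℕ) : ℝ) * (l n / M) := by
        have := (hl n).le
        positivity
      have h1 := hdig d n
      obtain ⟨g1, g2, -⟩ := hg n (node d n + ((d n : ℕ) : ℝ) * (l n / M)) (by linarith)
        (by linarith)
      rw [nodeS]
      constructor
      · linarith
      · linarith
  have sub : ∀ d n, node d n + ((d n : ℕ) : ℝ) * (l n / M) ≤ node d (n + 1) ∧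
      node d (n + 1) + l (n + 1) ≤ node d n + ((d n : ℕ) : ℝ) * (l n / M) + l n / (2 * M) ∧
      Set.Icc (node d (n + 1)) (node d (n + 1) + l (n + 1)) ⊆ B n := by
    intro d n
    obtain ⟨i1, i2⟩ := inv d n
    have h0 : 0 ≤ ((d n : ℕ) : ℝ) * (l n / M) := by
      have := (hl n).le
      positivity
    have h1 := hdig d n
    have := hg n (node d n + ((d n : ℕ) : ℝ) * (l n / M)) (by linarith) (by linarith)
    rw [nodeS]
    exact this
  have hpt : ∀ d : ℕ → Fin M, ∃ z : ℝ, ∀ n, z ∈ Set.Icc (node d n) (node d n + l n) := by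
    intro d
    have := IsCompact.nonempty_iInter_of_sequence_nonempty_isCompact_isClosed
      (fun n => Set.Icc (node d n) (node d n + l n)) (fun n => by
        apply Set.Icc_subset_Icc
        · have h0 : 0 ≤ ((d n : ℕ) : ℝ) * (l n / M) := by
            have := (hl n).le
            positivity
          linarith [(sub d n).1]
        · have h1 := hdig d n
          linarith [(sub d n).2.1])
      (fun n => Set.nonempty_Icc.2 (by linarith [hl n])) isCompact_Icc (fun n => isClosed_Icc)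
    obtain ⟨z, hz⟩ := this
    exact ⟨z, fun n => Set.mem_iInter.1 hz n⟩
  choose p hp using hpt
  refine ⟨p, fun d => ?_, fun d n => (sub d n).2.2 (hp d (n + 1)), ?_⟩
  · have h1 := hp d 0
    exact ⟨le_trans (inv d 0).1 h1.1, le_trans h1.2 (inv d 0).2⟩
  · intro d d' n hag hne
    have hcong : node d n = node d' n := by
      have : ∀ m, m ≤ n → node d m = node d' m := by
        intro m hm
        induction m with
        | zero => rfl
        | succ m ih =>
          rw [nodeS, nodeS, ih (by omega), hag m (by omega)]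
      exact this n le_rfl
    have h1 := hp d (n + 1)
    have h2 := hp d' (n + 1)
    have s1 := sub d n
    have s2 := sub d' n
    rw [← hcong] at s2
    have h3 : 0 < l n / M := div_pos (hl n) hM0
    have h4 : l n / M = 2 * (l n / (2 * M)) := by field_simp
    have key : ∀ i j : ℕ, i < j → ((i : ℝ) + 1) * (l n / M) ≤ (j : ℝ) * (l n / M) := by
      intro i j hij
      apply mul_le_mul_of_nonneg_right _ h3.le
      exact_mod_cast hij
    rcases lt_or_gt_of_ne (fun h => hne (Fin.ext h) : (d n : ℕ) ≠ (d' n : ℕ)) with h5 | h5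
    · have h6 := key _ _ h5
      rw [abs_sub_comm]
      refine le_trans ?_ (le_abs_self _)
      have e1 := h1.2
      have e2 := s1.2.1
      have e3 := h2.1
      have e4 := s2.1
      nlinarith
    · have h6 := key _ _ h5
      refine le_trans ?_ (le_abs_self _)
      have e1 := h2.2
      have e2 := s2.2.1
      have e3 := h1.1
      have e4 := s1.1
      nlinarith

theorem dimH_of_points {M : ℕ} (hM : 2 ≤ M) {l : ℕ → ℝ} (hl : ∀ n, 0 < l n)
    {p : (ℕ → Fin M) → ℝ}
    (hsep : ∀ d d' n, (∀ i < n, d i = d' i) → d n ≠ d' n → l n / (2 * M) ≤ |p d - p d'|)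
    {s : NNReal} (hs : 0 < s) {C : NNReal}
    (hCl : ∀ n, ((M : ℝ) ^ n)⁻¹ ≤ C * (l n / (2 * M)) ^ (s : ℝ)) :
    (s : ENNReal) ≤ dimH (Set.range p) := by
  classical
  have hMr : (0 : ℝ) < M := by exact_mod_cast (by omega : 0 < M)
  have key : ∀ d d' : ℕ → Fin M, d ≠ d' → ∃ n : ℕ,
      |Real.ofDigits d - Real.ofDigits d'| ≤ ((M : ℝ) ^ n)⁻¹ ∧ l n / (2 * M) ≤ dist (p d) (p d') := by
    intro d d' hdd
    have hex : ∃ n, d n ≠ d' n := Function.ne_iff.1 hdd
    have hag : ∀ i < Nat.find hex, d i = d' i := by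
      intro i hi
      have := Nat.find_min hex hi
      push Not at this
      exact this
    refine ⟨Nat.find hex, Real.abs_ofDigits_sub_ofDigits_le hag, ?_⟩
    rw [Real.dist_eq]
    exact hsep d d' _ hag (Nat.find_spec hex)
  have hinj : Function.Injective p := by
    intro d d' h
    by_contra hne
    obtain ⟨n, -, h2⟩ := key d d' hne
    rw [h, dist_self] at h2
    have : 0 < l n / (2 * M) := div_pos (hl n) (by positivity)
    linarith
  have hne : Nonempty (ℕ → Fin M) := ⟨fun _ => ⟨0, by omega⟩⟩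
  set g : ℝ → ℝ := fun z => Real.ofDigits (Function.invFun p z) with hg
  have hgp : ∀ d, g (p d) = Real.ofDigits d := by
    intro d
    simp only [hg]
    rw [Function.leftInverse_invFun hinj d]
  have hbound : ∀ d d' : ℕ → Fin M,
      |Real.ofDigits d - Real.ofDigits d'| ≤ C * (dist (p d) (p d')) ^ (s : ℝ) := by
    intro d d'
    by_cases hdd : d = d'
    · subst hdd
      simp only [sub_self, abs_zero]
      positivity
    · obtain ⟨n, h1, h2⟩ := key d d' hdd
      refine h1.trans ((hCl n).trans ?_)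
      apply mul_le_mul_of_nonneg_left _ (NNReal.coe_nonneg C)
      exact Real.rpow_le_rpow (div_pos (hl n) (by positivity)).le h2 (NNReal.coe_nonneg s)
  have hhold : HolderOnWith C s g (Set.range p) := by
    rintro _ ⟨d, rfl⟩ _ ⟨d', rfl⟩
    rw [hgp, hgp, edist_dist, edist_dist, Real.dist_eq]
    have h1 := hbound d d'
    calc ENNReal.ofReal |Real.ofDigits d - Real.ofDigits d'|
        ≤ ENNReal.ofReal (C * (dist (p d) (p d')) ^ (s : ℝ)) := ENNReal.ofReal_le_ofReal h1
      _ = (C : ENNReal) * ENNReal.ofReal (dist (p d) (p d')) ^ (s : ℝ) := by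
          rw [ENNReal.ofReal_mul (NNReal.coe_nonneg C), ENNReal.ofReal_rpow_of_nonneg dist_nonneg (NNReal.coe_nonneg s)]
          congr 1
          simp
  have h1 : dimH (g '' Set.range p) ≤ dimH (Set.range p) / (s : ENNReal) :=
    hhold.dimH_image_le hs
  have h2 : Set.Icc (0 : ℝ) 1 ⊆ g '' Set.range p := by
    intro t ht
    obtain ⟨d, -, hd⟩ := Real.ofDigits_SurjOn (b := M) (by omega) ht
    exact ⟨p d, ⟨d, rfl⟩, by rw [hgp, hd]⟩
  have h3 : dimH (Set.Icc (0 : ℝ) 1) = 1 := by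
    have := Real.dimH_of_nonempty_interior (E := ℝ) (s := Set.Icc (0 : ℝ) 1)
      (by rw [interior_Icc]; exact ⟨1 / 2, by norm_num, by norm_num⟩)
    simpa using this
  have h4 : (1 : ENNReal) ≤ dimH (Set.range p) / (s : ENNReal) := by
    rw [← h3]; exact (dimH_mono h2).trans h1
  have hs0 : (s : ENNReal) ≠ 0 := by exact_mod_cast hs.ne'
  have := (ENNReal.le_div_iff_mul_le (Or.inl hs0) (Or.inl ENNReal.coe_ne_top)).1 h4
  simpa using this

/-- For `σ < 1` there is `M ≥ 2` with `(2 M)^σ ≤ M`. -/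
theorem exists_base {σ : ℝ} (h1 : σ < 1) : ∃ M : ℕ, 2 ≤ M ∧
    ((2 : ℝ) * M) ^ σ ≤ M := by
  have ht : Tendsto (fun M : ℕ => (M : ℝ) ^ (1 - σ)) atTop atTop :=
    (tendsto_rpow_atTop (by linarith)).comp tendsto_natCast_atTop_atTop
  obtain ⟨M, hM2, hM⟩ := ((eventually_ge_atTop 2).and (ht.eventually_ge_atTop 2)).exists
  refine ⟨M, hM2, ?_⟩
  have hM0 : (0 : ℝ) < M := by exact_mod_cast (by omega : 0 < M)
  have h2 : (2 : ℝ) ^ σ ≤ 2 := by
    calc (2 : ℝ) ^ σ ≤ 2 ^ (1 : ℝ) := Real.rpow_le_rpow_of_exponent_le (by norm_num) h1.le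
      _ = 2 := Real.rpow_one 2
  rw [Real.mul_rpow (by norm_num) hM0.le]
  calc (2 : ℝ) ^ σ * (M : ℝ) ^ σ ≤ (M : ℝ) ^ (1 - σ) * (M : ℝ) ^ σ := by
        apply mul_le_mul_of_nonneg_right (h2.trans hM) (by positivity)
    _ = M := by
        rw [← Real.rpow_add hM0]
        norm_num

/-- The state of the construction: current length, number of past visits, number of steps until
the next visit, index of the next target. -/
structure St where
  l : ℝ
  k : ℕ
  r : ℕ
  j : ℕ

theorem dimH_limsup {x : ℕ → ℝ} (hx : Tendsto x atTop atTop) {A : ℕ → Set ℝ} {a b θ D : ℝ}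
    (hab : a < b) (hθ0 : 0 < θ) (hθ1 : θ < 1) (hD : 0 < D)
    (hA : ∀ᶠ j in atTop, ∀ w, a ≤ w → w + D * (x j) ^ (θ - 1) ≤ b → ∃ w', w ≤ w' ∧
      w' + 1 / (2 * x j) ≤ w + D * (x j) ^ (θ - 1) ∧ Set.Icc w' (w' + 1 / (2 * x j)) ⊆ A j)
    {s : NNReal} (hs : 0 < s) (hsθ : (s : ℝ) < 1 - θ) :
    (s : ENNReal) ≤ dimH {α : ℝ | a ≤ α ∧ α ≤ b ∧ ∃ᶠ j in atTop, α ∈ A j} := by
  have hs0 : (0 : ℝ) < s := hs
  have hθ' : 0 < 1 - θ := by linarith
  -- `s / (1 - θ) < σ < 1`
  obtain ⟨σ, hσ1, hσ2⟩ : ∃ σ : ℝ, (s : ℝ) / (1 - θ) < σ ∧ σ < 1 :=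
    exists_between ((div_lt_one hθ').2 hsθ)
  have hσ0 : 0 < σ := lt_trans (div_pos hs0 hθ') hσ1
  have hsσ : (s : ℝ) < σ * (1 - θ) := by rwa [div_lt_iff₀ hθ'] at hσ1
  have hsσ' : (s : ℝ) ≤ σ := by nlinarith
  obtain ⟨M, hM2, hMσ⟩ := exists_base hσ2
  have hMr : (2 : ℝ) ≤ M := by exact_mod_cast hM2
  have hM0 : (0 : ℝ) < M := by linarith
  have hMs : ((2 : ℝ) * M) ^ (s : ℝ) ≤ M :=
    le_trans (Real.rpow_le_rpow_of_exponent_le (by linarith) hsσ') hMσ
  have hl0 : 0 < b - a := by linarith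
  set C : NNReal := ⟨((b - a) / (2 * M)) ^ (-(s : ℝ)), by positivity⟩ with hC
  have hCpos : 0 < (C : ℝ) := by
    show 0 < ((b - a) / (2 * M)) ^ (-(s : ℝ))
    positivity
  -- the plan
  have plan : ∀ (l : ℝ) (k : ℕ), ∃ r j : ℕ, 0 < l → (k ≤ j ∧ 0 < x j ∧
      D * (x j) ^ (θ - 1) ≤ l / (2 * M) ^ r / (2 * M) ∧
      ((M : ℝ) ^ r)⁻¹ ≤ C * (1 / (2 * x j) / (2 * M)) ^ (s : ℝ) ∧
      ∀ w, a ≤ w → w + D * (x j) ^ (θ - 1) ≤ b → ∃ w', w ≤ w' ∧
      w' + 1 / (2 * x j) ≤ w + D * (x j) ^ (θ - 1) ∧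
        Set.Icc w' (w' + 1 / (2 * x j)) ⊆ A j) := by
    intro l k
    by_cases hl : 0 < l
    · have t1 : Tendsto (fun j => (x j) ^ (θ - 1)) atTop (𝓝 0) := by
        have : Tendsto (fun y : ℝ => y ^ (-(1 - θ))) atTop (𝓝 0) := tendsto_rpow_neg_atTop hθ'
        have h2 := this.comp hx
        refine h2.congr (fun j => ?_)
        simp only [Function.comp]
        congr 1
        ring
      have t2 : ∀ᶠ j in atTop, (x j) ^ (θ - 1) < l / (2 * M) / D :=
        t1.eventually (gt_mem_nhds (by positivity))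
      -- power saving
      set Q : ℝ := ((2 * M) ^ 2 * D / l) ^ σ with hQ
      have hQ0 : 0 < Q := by positivity
      have t3 : Tendsto (fun j => (x j) ^ (σ * (1 - θ) - s)) atTop atTop :=
        (tendsto_rpow_atTop (by linarith)).comp hx
      have t4 := t3.eventually_ge_atTop (Q * (4 * (M : ℝ)) ^ (s : ℝ) / C)
      obtain ⟨j, hj1, hj2, hj3, hj4, hj5⟩ := ((eventually_ge_atTop k).and
        ((hx.eventually_gt_atTop 0).and (t2.and (t4.and hA)))).exists
      have hy1 : 1 ≤ l / (2 * M) / D / (x j) ^ (θ - 1) := by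
        rw [le_div_iff₀ (by positivity), one_mul]
        exact hj3.le
      obtain ⟨r, hr1, hr2⟩ := exists_nat_pow_near hy1 (show (1 : ℝ) < 2 * M by linarith)
      refine ⟨r, j, fun _ => ⟨hj1, hj2, ?_, ?_, hj5⟩⟩
      · rw [le_div_iff₀ (by positivity), le_div_iff₀ (by positivity)] at hr1
        rw [div_div, le_div_iff₀ (by positivity)]
        rw [le_div_iff₀ (by positivity)] at hr1
        calc D * (x j) ^ (θ - 1) * ((2 * M) ^ r * (2 * M))
            = (2 * (M : ℝ)) ^ r * (x j) ^ (θ - 1) * D * (2 * M) := by ring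
          _ ≤ l := hr1
      · -- `M^{-r} ≤ ((2M)^{-r})^σ`
        have e1 : ((M : ℝ) ^ r)⁻¹ ≤ (((2 * (M : ℝ)) ^ r)⁻¹) ^ σ := by
          rw [Real.inv_rpow (by positivity), ← Real.rpow_natCast (2 * (M : ℝ)) r,
            ← Real.rpow_mul (by positivity), mul_comm (r : ℝ) σ, Real.rpow_mul (by positivity),
            Real.rpow_natCast]
          apply inv_anti₀ (by positivity)
          exact pow_le_pow_left₀ (by positivity) hMσ r
        have e2 : ((2 * (M : ℝ)) ^ r)⁻¹ ≤ ((2 * M) ^ 2 * D / l) * (x j) ^ (θ - 1) := by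
          rw [pow_succ] at hr2
          rw [inv_le_comm₀ (by positivity) (by positivity), mul_inv, inv_div]
          have e3 : l / (2 * M) / D / (x j) ^ (θ - 1) < (2 * (M : ℝ)) ^ r * (2 * M) := hr2
          rw [div_lt_iff₀ (by positivity), div_lt_iff₀ (by positivity),
            div_lt_iff₀ (by positivity)] at e3
          rw [← div_eq_mul_inv, div_le_iff₀ (by positivity), div_le_iff₀ (by positivity)]
          calc l ≤ (2 * (M : ℝ)) ^ r * (2 * M) * (x j) ^ (θ - 1) * D * (2 * M) := e3.le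
            _ = (2 * (M : ℝ)) ^ r * (x j) ^ (θ - 1) * ((2 * M) ^ 2 * D) := by ring
        have e4 : (((2 * (M : ℝ)) ^ r)⁻¹) ^ σ ≤ Q * (x j) ^ (-(σ * (1 - θ))) := by
          calc (((2 * (M : ℝ)) ^ r)⁻¹) ^ σ ≤ (((2 * M) ^ 2 * D / l) * (x j) ^ (θ - 1)) ^ σ :=
                Real.rpow_le_rpow (by positivity) e2 hσ0.le
            _ = Q * (x j) ^ (-(σ * (1 - θ))) := by
                rw [Real.mul_rpow (by positivity) (by positivity), ← Real.rpow_mul hj2.le]
                congr 2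
                ring
        refine le_trans e1 (le_trans e4 ?_)
        have e5 : (1 / (2 * x j) / (2 * M)) ^ (s : ℝ) =
            ((4 * (M : ℝ)) ^ (s : ℝ))⁻¹ * (x j) ^ (-(s : ℝ)) := by
          rw [Real.rpow_neg hj2.le, ← mul_inv, ← Real.mul_rpow (by positivity) hj2.le,
            ← Real.inv_rpow (by positivity)]
          congr 1
          field_simp
          ring
        rw [e5]
        have e6 : (x j) ^ (-(s : ℝ)) = (x j) ^ (-(σ * (1 - θ))) * (x j) ^ (σ * (1 - θ) - s) := by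
          rw [← Real.rpow_add hj2]
          congr 1
          ring
        rw [e6]
        rw [div_le_iff₀ hCpos] at hj4
        have e7 : Q ≤ C * ((4 * (M : ℝ)) ^ (s : ℝ))⁻¹ * (x j) ^ (σ * (1 - θ) - s) := by
          have : (0 : ℝ) < (4 * (M : ℝ)) ^ (s : ℝ) := by positivity
          calc Q = Q * (4 * (M : ℝ)) ^ (s : ℝ) * ((4 * (M : ℝ)) ^ (s : ℝ))⁻¹ := by field_simp
            _ ≤ (x j) ^ (σ * (1 - θ) - s) * C * ((4 * (M : ℝ)) ^ (s : ℝ))⁻¹ := by gcongr
            _ = _ := by ring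
        calc Q * (x j) ^ (-(σ * (1 - θ)))
            ≤ C * ((4 * (M : ℝ)) ^ (s : ℝ))⁻¹ * (x j) ^ (σ * (1 - θ) - s) *
              (x j) ^ (-(σ * (1 - θ))) := by gcongr
          _ = _ := by ring
    · exact ⟨0, 0, fun h => absurd h hl⟩
  choose R J hRJ using plan
  -- the sequence of states
  set next : St → St := fun t => if t.r = 0 then
      ⟨1 / (2 * x t.j), t.k + 1, R (1 / (2 * x t.j)) (t.k + 1), J (1 / (2 * x t.j)) (t.k + 1)⟩
    else ⟨t.l / (2 * M), t.k, t.r - 1, t.j⟩ with hnext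
  set S : ℕ → St := fun n => next^[n] ⟨b - a, 0, R (b - a) 0, J (b - a) 0⟩ with hS
  have S0 : S 0 = ⟨b - a, 0, R (b - a) 0, J (b - a) 0⟩ := rfl
  have SS : ∀ n, S (n + 1) = next (S n) := by
    intro n
    simp only [hS]
    rw [Function.iterate_succ_apply']
  have nz : ∀ t : St, t.r = 0 → next t =
      ⟨1 / (2 * x t.j), t.k + 1, R (1 / (2 * x t.j)) (t.k + 1), J (1 / (2 * x t.j)) (t.k + 1)⟩ := by
    intro t ht
    simp only [hnext]
    rw [if_pos ht]
  have nn : ∀ t : St, t.r ≠ 0 → next t = ⟨t.l / (2 * M), t.k, t.r - 1, t.j⟩ := by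
    intro t ht
    simp only [hnext]
    rw [if_neg ht]
  have hpow1 : ∀ n : ℕ, ((M : ℝ) ^ n)⁻¹ ≤ 1 := by
    intro n
    apply inv_le_one_of_one_le₀
    exact one_le_pow₀ (by linarith)
  have inv : ∀ n, 0 < (S n).l ∧ (S n).k ≤ (S n).j ∧ 0 < x (S n).j ∧
      D * (x (S n).j) ^ (θ - 1) ≤ (S n).l / (2 * M) ^ (S n).r / (2 * M) ∧
      ((M : ℝ) ^ (n + (S n).r))⁻¹ ≤ C * (1 / (2 * x (S n).j) / (2 * M)) ^ (s : ℝ) ∧
      (∀ w, a ≤ w → w + D * (x (S n).j) ^ (θ - 1) ≤ b → ∃ w', w ≤ w' ∧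
        w' + 1 / (2 * x (S n).j) ≤ w + D * (x (S n).j) ^ (θ - 1) ∧
        Set.Icc w' (w' + 1 / (2 * x (S n).j)) ⊆ A (S n).j) ∧
      ((M : ℝ) ^ n)⁻¹ ≤ C * ((S n).l / (2 * M)) ^ (s : ℝ) := by
    intro n
    induction n with
    | zero =>
      rw [S0]
      obtain ⟨p1, p2, p3, p4, p5⟩ := hRJ (b - a) 0 hl0
      refine ⟨hl0, p1, p2, p3, ?_, p5, ?_⟩
      · simpa using p4
      · have h1 : ((b - a) / (2 * M)) ^ (-(s : ℝ)) * ((b - a) / (2 * M)) ^ (s : ℝ) = 1 := by
          rw [← Real.rpow_add (by positivity)]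
          simp
        show ((M : ℝ) ^ 0)⁻¹ ≤ ((b - a) / (2 * M)) ^ (-(s : ℝ)) * ((b - a) / (2 * M)) ^ (s : ℝ)
        rw [h1]
        simp
    | succ n ih =>
      obtain ⟨i1, i2, i3, i4, i5, i6, i7⟩ := ih
      rw [SS]
      by_cases hr : (S n).r = 0
      · rw [nz _ hr]
        have hl' : 0 < 1 / (2 * x (S n).j) := by positivity
        obtain ⟨p1, p2, p3, p4, p5⟩ := hRJ (1 / (2 * x (S n).j)) ((S n).k + 1) hl'
        refine ⟨hl', p1, p2, p3, ?_, p5, ?_⟩
        · refine le_trans ?_ p4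
          show ((M : ℝ) ^ (n + 1 + R (1 / (2 * x (S n).j)) ((S n).k + 1)))⁻¹ ≤ _
          rw [pow_add, mul_inv]
          have h1 := hpow1 (n + 1)
          have h2 : 0 ≤ ((M : ℝ) ^ R (1 / (2 * x (S n).j)) ((S n).k + 1))⁻¹ := by positivity
          nlinarith
        · refine le_trans ?_ i5
          rw [hr, add_zero]
          apply inv_anti₀ (by positivity)
          exact pow_le_pow_right₀ (by linarith) (Nat.le_succ n)
      · rw [nn _ hr]
        obtain ⟨r', hr'⟩ : ∃ r', (S n).r = r' + 1 := ⟨(S n).r - 1, by omega⟩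
        refine ⟨by positivity, i2, i3, ?_, ?_, i6, ?_⟩
        · show D * (x (S n).j) ^ (θ - 1) ≤ (S n).l / (2 * M) / (2 * M) ^ ((S n).r - 1) / (2 * M)
          rw [hr', Nat.add_sub_cancel]
          rw [hr', pow_succ'] at i4
          rw [div_div (S n).l]
          exact i4
        · show ((M : ℝ) ^ (n + 1 + ((S n).r - 1)))⁻¹ ≤ _
          have : n + 1 + ((S n).r - 1) = n + (S n).r := by omega
          rw [this]
          exact i5
        · show ((M : ℝ) ^ (n + 1))⁻¹ ≤ C * ((S n).l / (2 * M) / (2 * M)) ^ (s : ℝ)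
          have h3 : ((S n).l / (2 * (M : ℝ)) / (2 * M)) ^ (s : ℝ) =
              ((S n).l / (2 * (M : ℝ))) ^ (s : ℝ) / (2 * (M : ℝ)) ^ (s : ℝ) :=
            Real.div_rpow (by positivity) (by positivity) _
          rw [h3, pow_succ, mul_inv]
          have h2 : (0 : ℝ) < (2 * M) ^ (s : ℝ) := by positivity
          calc ((M : ℝ) ^ n)⁻¹ * (M : ℝ)⁻¹
              ≤ (C * ((S n).l / (2 * (M : ℝ))) ^ (s : ℝ)) * ((2 * (M : ℝ)) ^ (s : ℝ))⁻¹ := by
                apply mul_le_mul i7 (inv_anti₀ h2 hMs) (by positivity) (by positivity)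
            _ = C * (((S n).l / (2 * (M : ℝ))) ^ (s : ℝ) / (2 * (M : ℝ)) ^ (s : ℝ)) := by
                rw [div_eq_mul_inv]; ring
  -- the tree
  obtain ⟨p, hp1, hp2, hp3⟩ := tree_points hM2 (a := a) (b := b) (u0 := a)
    (l := fun n => (S n).l) (fun n => (inv n).1)
    (B := fun n => if (S n).r = 0 then A (S n).j else Set.univ) le_rfl
    (by show a + (b - a) ≤ b; linarith) (by
      intro n w hw1 hw2
      obtain ⟨i1, i2, i3, i4, i5, i6, i7⟩ := inv n
      by_cases hr : (S n).r = 0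
      · have h1 : (S (n + 1)).l = 1 / (2 * x (S n).j) := by rw [SS, nz _ hr]
        simp only [if_pos hr]
        rw [h1]
        rw [hr, pow_zero, div_one] at i4
        obtain ⟨w', c1, c2, c3⟩ := i6 w hw1 (by linarith)
        exact ⟨w', c1, by linarith, c3⟩
      · have h1 : (S (n + 1)).l = (S n).l / (2 * M) := by rw [SS, nn _ hr]
        simp only [if_neg hr]
        rw [h1]
        exact ⟨w, le_rfl, le_rfl, Set.subset_univ _⟩)
  refine le_trans (dimH_of_points hM2 (fun n => (inv n).1) hp3 hs (C := C)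
    (fun n => (inv n).2.2.2.2.2.2)) (dimH_mono ?_)
  rintro _ ⟨d, rfl⟩
  refine ⟨(hp1 d).1, (hp1 d).2, ?_⟩
  rw [frequently_atTop]
  -- there are visits with arbitrarily large index
  have adv : ∀ n, ∃ m, n ≤ m ∧ (S m).r = 0 ∧ (S m).k = (S n).k := by
    intro n
    have : ∀ r n, (S n).r = r → ∃ m, n ≤ m ∧ (S m).r = 0 ∧ (S m).k = (S n).k := by
      intro r
      induction r with
      | zero => intro n hn; exact ⟨n, le_rfl, hn, rfl⟩
      | succ r ih =>
        intro n hn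
        have h1 : S (n + 1) = ⟨(S n).l / (2 * M), (S n).k, (S n).r - 1, (S n).j⟩ := by
          rw [SS, nn _ (by omega)]
        obtain ⟨m, hm1, hm2, hm3⟩ := ih (n + 1) (by rw [h1]; show (S n).r - 1 = r; omega)
        refine ⟨m, by omega, hm2, ?_⟩
        rw [hm3, h1]
    exact this _ n rfl
  have visits : ∀ q : ℕ, ∃ m, (S m).r = 0 ∧ q ≤ (S m).k := by
    intro q
    induction q with
    | zero =>
      obtain ⟨m, -, h2, -⟩ := adv 0
      exact ⟨m, h2, Nat.zero_le _⟩
    | succ q ih =>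
      obtain ⟨m, hm1, hm2⟩ := ih
      obtain ⟨m', -, h2, h3⟩ := adv (m + 1)
      refine ⟨m', h2, ?_⟩
      rw [h3, SS, nz _ hm1]
      show q + 1 ≤ (S m).k + 1
      omega
  intro q
  obtain ⟨m, hm1, hm2⟩ := visits q
  refine ⟨(S m).j, le_trans hm2 (inv m).2.1, ?_⟩
  have h1 := hp2 d m
  simp only [if_pos hm1] at h1
  exact h1

end Pool.Agent.Q136.MG
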