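import Mathlib
import Pool.Agent.Q136.MG.Baire
import Pool.Agent.Q136.MG.Dim

/-!
# Record prime gaps at dilates of a sequence: Hausdorff dimension
-/

set_option autoImplicit false

open MeasureTheory Filter Topology Set

namespace Pool.Agent.Q136.MG

theorem dim_main (θ : ℝ) (h0 : 0 < θ) (h1 : θ < 1) : ∃ c : ℝ, 0 < c ∧
    ∀ x : ℕ → ℝ, Tendsto x atTop atTop → ∀ a b : ℝ, 0 < a → a < b →
      ∀ s : NNReal, 0 < s → (s : ℝ) < 1 - θ →
      (s : ENNReal) ≤ dimH {α : ℝ | a ≤ α ∧ α ≤ b ∧ ∃ᶠ n in atTop, Far (c * f (x n)) (α * x n)} := by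
  obtain ⟨c, hc, h⟩ := short_windows θ h0 h1.le
  refine ⟨c, hc, fun x hx a b ha hab s hs hsθ => ?_⟩
  obtain ⟨x₀, hx₀, hwin⟩ := h a b ha hab
  have hb : 0 < b := by linarith
  refine dimH_limsup (A := fun j => Good (c * f (x j)) (x j)) hx hab h0 h1
    (show 0 < b ^ θ + 1 by positivity) ?_ hs hsθ
  filter_upwards [hx.eventually_ge_atTop x₀] with j hj w hw1 hw2
  have hx1 : 1 ≤ x j := le_trans hx₀ hj
  have hx0 : 0 < x j := by linarith
  have hwb : w ≤ b := by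
    have : 0 ≤ (b ^ θ + 1) * x j ^ (θ - 1) := by positivity
    linarith
  obtain ⟨N, hN1, hN2, hN3⟩ := hwin (x j) hj (w * x j) (by gcongr) (by gcongr)
  have hw0 : 0 < w := by linarith
  refine ⟨(N : ℝ) / x j, ?_, ?_, ?_⟩
  · rw [le_div_iff₀ hx0]; exact hN1.le
  · have e1 : (w * x j) ^ θ ≤ b ^ θ * (x j) ^ θ := by
      rw [Real.mul_rpow hw0.le hx0.le]
      gcongr
    have e2 : (1 : ℝ) ≤ (x j) ^ θ := Real.one_le_rpow hx1 h0.le
    have e3 : (x j) ^ (θ - 1) = (x j) ^ θ / x j := by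
      rw [Real.rpow_sub hx0, Real.rpow_one]
    rw [e3]
    have e4 : (N : ℝ) / x j + 1 / (2 * x j) = ((N : ℝ) + 1 / 2) / x j := by
      field_simp
    have e5 : w + (b ^ θ + 1) * (x j ^ θ / x j) = (w * x j + (b ^ θ + 1) * x j ^ θ) / x j := by
      field_simp
    rw [e4, e5]
    apply div_le_div_of_nonneg_right _ hx0.le
    have e6 : (b ^ θ + 1) * x j ^ θ = b ^ θ * x j ^ θ + x j ^ θ := by ring
    linarith
  · refine subset_trans ?_ (Good_of_mem hx0 hN3)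
    intro y hy
    refine ⟨hy.1, lt_of_le_of_lt hy.2 ?_⟩
    have e4 : (N : ℝ) / x j + 1 / (2 * x j) = ((N : ℝ) + 1 / 2) / x j := by
      field_simp
    rw [e4]
    gcongr
    linarith

theorem dim_eps (ε : ℝ) (h0 : 0 < ε) : ∃ c : ℝ, 0 < c ∧
    ∀ x : ℕ → ℝ, Tendsto x atTop atTop → ∀ a b : ℝ, 0 < a → a < b →
      ENNReal.ofReal (1 - ε) ≤
        dimH {α : ℝ | a < α ∧ α < b ∧ ∃ᶠ n in atTop, Far (c * f (x n)) (α * x n)} := by
  rcases lt_or_ge ε 1 with h1 | h1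
  · obtain ⟨c, hc, h⟩ := dim_main (ε / 2) (by linarith) (by linarith)
    refine ⟨c, hc, fun x hx a b ha hab => ?_⟩
    have h2 := h x hx ((2 * a + b) / 3) ((a + 2 * b) / 3) (by linarith) (by linarith)
      (Real.toNNReal (1 - ε)) (by rw [Real.toNNReal_pos]; linarith)
      (by rw [Real.coe_toNNReal _ (by linarith)]; linarith)
    refine le_trans h2 (dimH_mono ?_)
    rintro α ⟨h3, h4, h5⟩
    exact ⟨by linarith, by linarith, h5⟩
  · refine ⟨1, one_pos, fun x _ a b _ _ => ?_⟩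
    rw [ENNReal.ofReal_of_nonpos (by linarith)]
    exact zero_le

theorem dim_one (x : ℕ → ℝ) (hx : Tendsto x atTop atTop) (a b : ℝ) (ha : 0 < a) (hab : a < b) :
    dimH {α : ℝ | a < α ∧ α < b ∧ ∃ c : ℝ, 0 < c ∧
      ∃ᶠ n in atTop, Far (c * f (x n)) (α * x n)} = 1 := by
  apply le_antisymm
  · calc _ ≤ dimH (Set.univ : Set ℝ) := dimH_mono (Set.subset_univ _)
      _ = 1 := Real.dimH_univ
  · apply le_of_forall_lt
    intro t ht
    have htop : t ≠ ⊤ := ne_top_of_lt ht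
    lift t to NNReal using htop with r
    have hr : (r : ℝ) < 1 := by exact_mod_cast ht
    set ε : ℝ := (1 - r) / 2 with hε
    obtain ⟨c, hc, h⟩ := dim_eps ε (by linarith)
    refine lt_of_lt_of_le ?_ (le_trans (h x hx a b ha hab) (dimH_mono ?_))
    · rw [← ENNReal.ofReal_coe_nnreal, ENNReal.ofReal_lt_ofReal_iff (by
        have : (0 : ℝ) ≤ r := r.2
        linarith)]
      linarith
    · rintro α ⟨h1, h2, h3⟩
      exact ⟨h1, h2, c, hc, h3⟩

end Pool.Agent.Q136.MG
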